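import Pool.Agent.Helper89.GP.GoalsB

/-!
# Decomposition by the value of the difference
-/

namespace Pool.Agent.Helper24.GP

open Finset Pool.Agent.Helper89.GP

theorem sum_pick (n : ℕ) (f : ℕ → ℝ) {a b : ℕ} (hb : b < n) :
    (∑ k ∈ range n, if b = a + (k + 1) then f k else 0) = if a < b then f (b - a - 1) else 0 := by
  split_ifs with hab
  · rw [Finset.sum_eq_single (b - a - 1)]
    · rw [if_pos (by omega)]
    · intro k _ hk
      rw [if_neg (by omega)]
    · intro hk
      exact absurd (mem_range.2 (by omega)) hk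
  · apply Finset.sum_eq_zero
    intro k _
    rw [if_neg (by omega)]

theorem sum_bq {n : ℕ} (R : Fin n → Fin n → Prop) (u v : Fin n) (f : ℕ → ℝ) :
    ∑ k ∈ range n, f k * bq R u v k =
      Ex R fun σ => if po σ u < po σ v then f (po σ v - po σ u - 1) else 0 := by
  classical
  have h1 : ∀ k, f k * bq R u v k =
      Ex R fun σ => if po σ v = po σ u + (k + 1) then f k else 0 := by
    intro k
    unfold bq
    rw [Pr_eq_Ex, ← Ex_mul]
    apply Ex_congr
    intro σ _
    split_ifs <;> simp
  rw [Finset.sum_congr rfl fun k _ => h1 k, ← Ex_sum]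
  apply Ex_congr
  intro σ _
  exact sum_pick n f (po_lt_n σ v)

/-- DCB. -/
theorem dcb : DcbStmt := by
  classical
  intro n R u v hne huv
  have hP : (Pr R fun σ => po σ u < po σ v) = 1 - An R u v := by
    have h := Pr_add (R := R) (p := fun σ => po σ u < po σ v) (q := fun σ => po σ v < po σ u)
      (s := fun _ => True)
      (fun σ _ => ⟨fun _ => po_lt_or huv, fun _ => trivial⟩)
      (fun σ _ h1 h2 => by
        have h1' : po σ u < po σ v := h1
        have h2' : po σ v < po σ u := h2
        omega)
    rw [Pr_true hne] at h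
    unfold An
    linarith
  have hgp : gp R u v = hh R v - hh R u := by
    unfold gp hh
    rw [← Ex_sub]
    rfl
  have hbq0 : ∀ (a b : Fin n) k, 0 ≤ bq R a b k := fun a b k => Pr_nonneg _
  refine ⟨?_, hP, ?_, hgp, ?_, ?_⟩
  · rw [← hP]
    have h := sum_bq R u v (fun _ => 1)
    simp only [one_mul] at h
    rw [h, Pr_eq_Ex]
  · unfold gp Nn
    rw [sum_bq R u v (fun k => (k : ℝ) + 1), sum_bq R v u (fun k => (k : ℝ) + 1), ← Ex_sub]
    apply Ex_congr
    intro σ _
    unfold df
    rcases po_lt_or (σ := σ) huv with h | h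
    · rw [if_pos h, if_neg (by omega)]
      have h2 : ((po σ v - po σ u - 1 : ℕ) : ℝ) = (po σ v : ℝ) - po σ u - 1 := by
        rw [Nat.sub_sub, Nat.cast_sub (by omega)]
        push_cast
        ring
      rw [h2]
      ring
    · rw [if_neg (by omega), if_pos h]
      have h2 : ((po σ u - po σ v - 1 : ℕ) : ℝ) = (po σ u : ℝ) - po σ v - 1 := by
        rw [Nat.sub_sub, Nat.cast_sub (by omega)]
        push_cast
        ring
      rw [h2]
      ring
  · intro k hk
    apply Pr_eq_zero
    intro σ _ h
    have h1 := po_lt_n σ v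
    have h' : po σ v = po σ u + (k + 1) := h
    omega
  · unfold Nn
    apply Finset.sum_nonneg
    intro k _
    exact mul_nonneg (by positivity) (hbq0 v u k)

end Pool.Agent.Helper24.GP
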