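import Pool.Agent.Helper72.GP.GoalsB

/-!
# Project GP (MP_c9dfb5_co), packet SIEG: Siegel polynomials
-/

set_option autoImplicit false

namespace Pool.Agent.Helper24.GP

open Finset
open scoped Classical
open Pool.Agent.Helper72.GP

attribute [local instance] Matrix.seminormedAddCommGroup

theorem pow_bound {X M i j : ℕ} (hX : 2 ≤ X) {x y : ℤ} (hx0 : 0 ≤ x) (hx : x ≤ X) (hy0 : 0 ≤ y)
    (hy : y ≤ X) (h : i + j ≤ M) : |((x ^ i * y ^ j : ℤ) : ℝ)| ≤ (X : ℝ) ^ M := by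
  have hX1 : (1 : ℝ) ≤ X := by exact_mod_cast (by omega : 1 ≤ X)
  have h1 : (0 : ℝ) ≤ x := by exact_mod_cast hx0
  have h2 : (x : ℝ) ≤ X := by exact_mod_cast hx
  have h3 : (0 : ℝ) ≤ y := by exact_mod_cast hy0
  have h4 : (y : ℝ) ≤ X := by exact_mod_cast hy
  push_cast
  rw [abs_of_nonneg (by positivity)]
  calc (x : ℝ) ^ i * (y : ℝ) ^ j ≤ (X : ℝ) ^ i * (X : ℝ) ^ j :=
        mul_le_mul (pow_le_pow_left₀ h1 h2 i) (pow_le_pow_left₀ h3 h4 j) (by positivity)
          (by positivity)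
    _ = (X : ℝ) ^ (i + j) := by rw [pow_add]
    _ ≤ (X : ℝ) ^ M := pow_le_pow_right₀ hX1 h

theorem sieg : SIEG := by
  intro X mu hX hmu s hs
  have hX1 : (1 : ℝ) ≤ X := by exact_mod_cast (by omega : 1 ≤ X)
  have hmu1 : (1 : ℝ) ≤ mu := by exact_mod_cast hmu
  let A : Matrix (Fin (mu ^ 2)) (Fin (2 * mu) × Fin (2 * mu)) ℤ :=
    fun k b => (s k).1 ^ (b.1 : ℕ) * (s k).2 ^ (b.2 : ℕ)
  have hca : Fintype.card (Fin (mu ^ 2)) = mu ^ 2 := Fintype.card_fin _
  have hcb : Fintype.card (Fin (2 * mu) × Fin (2 * mu)) = 4 * mu ^ 2 := by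
    rw [Fintype.card_prod, Fintype.card_fin]
    ring
  have hpos : 0 < mu ^ 2 := by positivity
  obtain ⟨t, ht0, htA, htn⟩ := Int.Matrix.exists_ne_zero_int_vec_norm_le A
    (by rw [hca, hcb]; omega) (by rw [hca]; exact hpos)
  rw [hca, hcb] at htn
  set M : ℕ := 4 * mu - 2 with hM
  have hXM : (1 : ℝ) ≤ (X : ℝ) ^ M := one_le_pow₀ hX1
  have hA : ‖A‖ ≤ (X : ℝ) ^ M := by
    rw [Matrix.norm_le_iff (by positivity)]
    intro k b
    rw [Int.norm_eq_abs]
    have h1 := b.1.2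
    have h2 := b.2.2
    exact pow_bound hX (hs k).1 (hs k).2.1 (hs k).2.2.1 (hs k).2.2.2 (by omega)
  -- the norm of the solution
  have ht : ‖t‖ ≤ 4 * (mu : ℝ) ^ 2 * (X : ℝ) ^ M := by
    have hbase : (((4 * mu ^ 2 : ℕ) : ℝ) * max 1 ‖A‖) ≤ 4 * (mu : ℝ) ^ 2 * (X : ℝ) ^ M := by
      push_cast
      exact mul_le_mul_of_nonneg_left (max_le hXM hA) (by positivity)
    have hone : 1 ≤ (((4 * mu ^ 2 : ℕ) : ℝ) * max 1 ‖A‖) := by
      push_cast
      have h1 : (1 : ℝ) ≤ max 1 ‖A‖ := le_max_left _ _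
      nlinarith [mul_le_mul hmu1 hmu1 zero_le_one (by linarith : (0 : ℝ) ≤ mu)]
    have hexp : ((mu ^ 2 : ℕ) : ℝ) / (((4 * mu ^ 2 : ℕ) : ℝ) - ((mu ^ 2 : ℕ) : ℝ)) ≤ 1 := by
      push_cast
      have h2 : (0 : ℝ) < (mu : ℝ) ^ 2 := by positivity
      rw [div_le_one (by linarith)]
      linarith
    calc ‖t‖ ≤ _ := htn
      _ ≤ (((4 * mu ^ 2 : ℕ) : ℝ) * max 1 ‖A‖) ^ (1 : ℝ) :=
          Real.rpow_le_rpow_of_exponent_le hone hexp
      _ = (((4 * mu ^ 2 : ℕ) : ℝ) * max 1 ‖A‖) := Real.rpow_one _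
      _ ≤ _ := hbase
  refine ⟨fun i j => t (i, j), ?_, ?_, ?_⟩
  · intro h
    apply ht0
    funext b
    exact congrFun (congrFun h b.1) b.2
  · intro k
    have h1 := congrFun htA k
    rw [Matrix.mulVec, dotProduct] at h1
    unfold evc
    rw [← Fintype.sum_prod_type' (fun i j : Fin (2 * mu) =>
      t (i, j) * (s k).1 ^ (i : ℕ) * (s k).2 ^ (j : ℕ))]
    calc ∑ b : Fin (2 * mu) × Fin (2 * mu),
          t (b.1, b.2) * (s k).1 ^ (b.1 : ℕ) * (s k).2 ^ (b.2 : ℕ) = ∑ b, A k b * t b := by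
          refine sum_congr rfl fun b _ => ?_
          show t b * (s k).1 ^ (b.1 : ℕ) * (s k).2 ^ (b.2 : ℕ) =
            (s k).1 ^ (b.1 : ℕ) * (s k).2 ^ (b.2 : ℕ) * t b
          ring
      _ = 0 := h1
  · intro x hx hne
    have hval : |(evc (fun i j => t (i, j)) x : ℝ)| ≤
        4 * (mu : ℝ) ^ 2 * (4 * (mu : ℝ) ^ 2 * (X : ℝ) ^ M * (X : ℝ) ^ M) := by
      unfold evc
      rw [Int.cast_sum]
      have h5 : ∀ i : Fin (2 * mu), |((∑ j : Fin (2 * mu),
          t (i, j) * x.1 ^ (i : ℕ) * x.2 ^ (j : ℕ) : ℤ) : ℝ)| ≤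
          ∑ j : Fin (2 * mu), 4 * (mu : ℝ) ^ 2 * (X : ℝ) ^ M * (X : ℝ) ^ M := by
        intro i
        rw [Int.cast_sum]
        refine (abs_sum_le_sum_abs _ _).trans (sum_le_sum fun j _ => ?_)
        rw [mul_assoc, Int.cast_mul, abs_mul]
        have h6 : |(t (i, j) : ℝ)| ≤ ‖t‖ := by
          have := norm_le_pi_norm t (i, j)
          rwa [Int.norm_eq_abs] at this
        have h1 := i.2
        have h2 := j.2
        have h7 := pow_bound (M := M) (i := i) (j := j) hX hx.1 hx.2.1 hx.2.2.1 hx.2.2.2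
          (by omega)
        exact mul_le_mul (h6.trans ht) h7 (abs_nonneg _) (by positivity)
      refine (abs_sum_le_sum_abs _ _).trans ((sum_le_sum fun i _ => h5 i).trans ?_)
      rw [sum_const, sum_const, card_univ, Fintype.card_fin, nsmul_eq_mul, nsmul_eq_mul]
      push_cast
      apply le_of_eq
      ring
    have hlogX : 0 < Real.log X := Real.log_pos (by exact_mod_cast (by omega : 1 < X))
    have hlog2 : Real.log 2 ≤ Real.log X :=
      Real.log_le_log (by norm_num) (by exact_mod_cast hX)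
    have hl2 := Real.log_two_gt_d9
    have habs : 0 < |(evc (fun i j => t (i, j)) x : ℝ)| := by
      rw [abs_pos]
      exact_mod_cast hne
    have hmupos : (0 : ℝ) < mu := by linarith
    have hXpos : (0 : ℝ) < X := by linarith
    have hlogeq : Real.log (4 * (mu : ℝ) ^ 2 * (4 * (mu : ℝ) ^ 2 * (X : ℝ) ^ M * (X : ℝ) ^ M)) =
        4 * Real.log 2 + 4 * Real.log mu + 2 * M * Real.log X := by
      have e1 : 4 * (mu : ℝ) ^ 2 * (4 * (mu : ℝ) ^ 2 * (X : ℝ) ^ M * (X : ℝ) ^ M) =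
          2 ^ 4 * ((mu : ℝ) ^ 4 * (X : ℝ) ^ (2 * M)) := by ring
      rw [e1, Real.log_mul (by positivity) (by positivity),
        Real.log_mul (by positivity) (by positivity), Real.log_pow, Real.log_pow, Real.log_pow]
      push_cast
      ring
    have hMr : (M : ℝ) = 4 * mu - 2 := by
      rw [hM, Nat.cast_sub (by omega)]
      push_cast
      ring
    have hlogmu : Real.log mu ≤ mu - 1 := Real.log_le_sub_one_of_pos hmupos
    calc Real.log |(evc (fun i j => t (i, j)) x : ℝ)|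
        ≤ Real.log (4 * (mu : ℝ) ^ 2 * (4 * (mu : ℝ) ^ 2 * (X : ℝ) ^ M * (X : ℝ) ^ M)) :=
          Real.log_le_log habs hval
      _ = 4 * Real.log 2 + 4 * Real.log mu + 2 * M * Real.log X := hlogeq
      _ ≤ 14 * mu * Real.log X := by
          rw [hMr]
          have h8 : (1 : ℝ) ≤ 3 / 2 * Real.log X := by linarith
          have h9 : (mu : ℝ) - 1 ≤ (mu - 1) * (3 / 2 * Real.log X) := by
            nlinarith
          nlinarith

end Pool.Agent.Helper24.GP
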